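import Pool.Agent.Helper74.OKA.St.A02
import Pool.Agent.Helper74.OKA.St.A2a
import Pool.Agent.Helper74.OKA.St.A2b

/-! # MP_7bedea_an, piece A3: the splitting operator -/

set_option autoImplicit false

open Set Metric Topology MeasureTheory


namespace Pool.Agent.Helper42.OKA

open Pool.Agent.Helper74.OKA

section DQ

variable {G F : Type} [NormedAddCommGroup G] [NormedSpace ℂ G]
  [NormedAddCommGroup F] [NormedSpace ℂ F]

/-- difference quotient in the first variable -/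
noncomputable def dq (c : ℂ × G → F) (x : ℂ × (ℂ × G)) : F :=
  dslope (fun ω => c (ω, x.2.2)) x.2.1 x.1

omit [NormedAddCommGroup G] [NormedSpace ℂ G] in
theorem dq_of_ne (c : ℂ × G → F) {ζ w : ℂ} (h : ζ ≠ w) (p : G) :
    dq c (ζ, w, p) = (ζ - w)⁻¹ • (c (ζ, p) - c (w, p)) := by
  simp only [dq, dslope_of_ne _ h, slope_def_module]

theorem diff_section {S : Set ℂ} {P : Set G} {c : ℂ × G → F}
    (hc : DifferentiableOn ℂ c (S ×ˢ P)) {p : G} (hp : p ∈ P) :
    DifferentiableOn ℂ (fun ω => c (ω, p)) S :=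
  hc.comp (by fun_prop) (fun ω hω => ⟨hω, hp⟩)

theorem dq_eq [CompleteSpace F] {S : Set ℂ} (hS : IsOpen S) {P : Set G} {c : ℂ × G → F}
    (hc : DifferentiableOn ℂ c (S ×ˢ P)) {w₀ : ℂ} {ρ : ℝ} (hρ : closedBall w₀ ρ ⊆ S) {ζ w : ℂ}
    {p : G} (hζ : ζ ∈ ball w₀ ρ) (hw : w ∈ ball w₀ ρ) (hp : p ∈ P) :
    dq c (ζ, w, p) =
      (2 * Real.pi * Complex.I : ℂ)⁻¹ • ∮ ω in C(w₀, ρ), ((ω - ζ) * (ω - w))⁻¹ • c (ω, p) := by
  have hd := diff_section hc hp
  have hρ0 : 0 < ρ := pos_of_mem_ball hζ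
  rcases eq_or_ne ζ w with h | h
  · subst h
    simp only [dq, dslope_same]
    rw [← Complex.two_pi_I_inv_smul_circleIntegral_sub_sq_inv_smul_of_differentiable hS hρ hd hw]
    simp only [pow_two]
  · rw [dq_of_ne _ h]
    have hne : ∀ ω ∈ sphere w₀ ρ, ∀ z ∈ ball w₀ ρ, ω - z ≠ 0 := fun ω hω z hz hh =>
      sphere_disjoint_ball.ne_of_mem hω hz (sub_eq_zero.1 hh)
    have h1 : (∮ ω in C(w₀, ρ), ((ω - ζ) * (ω - w))⁻¹ • c (ω, p)) =
        ∮ ω in C(w₀, ρ), (ζ - w)⁻¹ • ((ω - ζ)⁻¹ • c (ω, p) - (ω - w)⁻¹ • c (ω, p)) := by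
      refine circleIntegral.integral_congr hρ0.le fun ω hω => ?_
      have e1 := hne ω hω ζ hζ
      have e2 := hne ω hω w hw
      have e3 : ζ - w ≠ 0 := sub_ne_zero.2 h
      rw [← sub_smul, smul_smul]
      congr 1
      field_simp
      ring
    have hint : ∀ z ∈ ball w₀ ρ, CircleIntegrable (fun ω => (ω - z)⁻¹ • c (ω, p)) w₀ ρ := by
      intro z hz
      refine ContinuousOn.circleIntegrable hρ0.le ?_
      refine ContinuousOn.smul ?_ (hd.continuousOn.mono (sphere_subset_closedBall.trans hρ))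
      exact ContinuousOn.inv₀ (by fun_prop) fun ω hω => hne ω hω z hz
    have hd' := hd.mono hρ
    rw [h1, circleIntegral.integral_smul, circleIntegral.integral_sub (hint ζ hζ) (hint w hw),
      hd'.circleIntegral_sub_inv_smul hζ, hd'.circleIntegral_sub_inv_smul hw, ← smul_sub,
      smul_comm, inv_smul_smul₀ Complex.two_pi_I_ne_zero]

theorem norm_dq_le [CompleteSpace F] {S : Set ℂ} (hS : IsOpen S) {P : Set G} {c : ℂ × G → F}
    {M : ℝ} (hc : HB S P M c) {w₀ : ℂ} {ρ : ℝ} (hρ : closedBall w₀ ρ ⊆ S) {ζ w : ℂ}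
    {p : G} (hζ : ζ ∈ ball w₀ (ρ / 2)) (hw : w ∈ ball w₀ (ρ / 2)) (hp : p ∈ P) :
    ‖dq c (ζ, w, p)‖ ≤ 4 * M / ρ := by
  have hρ0 : 0 < ρ := by have := pos_of_mem_ball hζ; linarith
  have hζ' : ζ ∈ ball w₀ ρ := ball_subset_ball (by linarith) hζ
  have hw' : w ∈ ball w₀ ρ := ball_subset_ball (by linarith) hw
  rw [dq_eq hS hc.1 hρ hζ' hw' hp]
  have h1 : ∀ ω ∈ sphere w₀ ρ, ∀ z ∈ ball w₀ (ρ / 2), ρ / 2 ≤ ‖ω - z‖ := by
    intro ω hω z hz
    rw [mem_sphere, dist_eq_norm] at hω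
    rw [mem_ball, dist_eq_norm] at hz
    have := norm_sub_norm_le (ω - w₀) (z - w₀)
    rw [sub_sub_sub_cancel_right] at this
    linarith
  have h2 := circleIntegral.norm_two_pi_i_inv_smul_integral_le_of_norm_le_const
    (f := fun ω => ((ω - ζ) * (ω - w))⁻¹ • c (ω, p)) (c := w₀) (R := ρ)
    (C := (ρ / 2 * (ρ / 2))⁻¹ * M) hρ0.le (by
      intro ω hω
      rw [norm_smul, norm_inv, norm_mul]
      refine mul_le_mul ?_ (hc.2 _ ⟨hρ (sphere_subset_closedBall hω), hp⟩) (norm_nonneg _)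
        (by positivity)
      refine inv_anti₀ (by positivity) ?_
      exact mul_le_mul (h1 ω hω ζ hζ) (h1 ω hω w hw) (by positivity) (norm_nonneg _))
  refine h2.trans (le_of_eq ?_)
  field_simp
  ring

end DQ

section DQ2

variable {G F : Type} [NormedAddCommGroup G] [NormedSpace ℂ G] [FiniteDimensional ℂ G]
  [NormedAddCommGroup F] [NormedSpace ℂ F] [FiniteDimensional ℂ F]

/-- the difference quotient is holomorphic in all variables -/
theorem differentiableOn_dq {S : Set ℂ} (hS : IsOpen S) {P : Set G} (hP : IsOpen P)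
    {c : ℂ × G → F} {M : ℝ} (hc : HB S P M c) :
    DifferentiableOn ℂ (dq c) (S ×ˢ (S ×ˢ P)) := by
  have : CompleteSpace F := FiniteDimensional.complete ℂ F
  rintro ⟨ζ₀, w₀, p₀⟩ ⟨hζ₀, hw₀, hp₀⟩
  refine DifferentiableAt.differentiableWithinAt ?_
  have hSP : IsOpen (S ×ˢ P) := hS.prod hP
  rcases eq_or_ne ζ₀ w₀ with h | h
  · subst h
    obtain ⟨ρ, hρ0, hρ⟩ : ∃ ρ > 0, closedBall ζ₀ ρ ⊆ S := nhds_basis_closedBall.mem_iff.1 (hS.mem_nhds hζ₀)
    set Ω : Set (ℂ × (ℂ × G)) := ball ζ₀ (ρ / 2) ×ˢ (ball ζ₀ (ρ / 2) ×ˢ P) with hΩ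
    have hΩo : IsOpen Ω := isOpen_ball.prod (isOpen_ball.prod hP)
    have hmem : (ζ₀, ζ₀, p₀) ∈ Ω :=
      ⟨mem_ball_self (by positivity), mem_ball_self (by positivity), hp₀⟩
    have hne : ∀ θ : ℝ, ∀ z ∈ ball ζ₀ (ρ / 2), ρ / 2 ≤ ‖circleMap ζ₀ ρ θ - z‖ := by
      intro θ z hz
      have hω := circleMap_mem_sphere ζ₀ hρ0.le θ
      rw [mem_sphere, dist_eq_norm] at hω
      rw [mem_ball, dist_eq_norm] at hz
      have := norm_sub_norm_le (circleMap ζ₀ ρ θ - ζ₀) (z - ζ₀)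
      rw [sub_sub_sub_cancel_right] at this
      linarith
    have hin : ∀ θ : ℝ, circleMap ζ₀ ρ θ ∈ S := fun θ =>
      hρ (circleMap_mem_closedBall ζ₀ hρ0.le θ)
    have key : DifferentiableOn ℂ (fun x : ℂ × (ℂ × G) => ∫ θ : ℝ,
        deriv (circleMap ζ₀ ρ) θ • (((circleMap ζ₀ ρ θ - x.1) * (circleMap ζ₀ ρ θ - x.2.1))⁻¹ •
          c (circleMap ζ₀ ρ θ, x.2.2)) ∂(volume.restrict (Ioc 0 (2 * Real.pi)))) Ω := by
      refine differentiableOn_integral (volume.restrict (Ioc 0 (2 * Real.pi)))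
        (Ioc 0 (2 * Real.pi)) measurableSet_Ioc ?_ hΩo
        (fun θ x => deriv (circleMap ζ₀ ρ) θ • (((circleMap ζ₀ ρ θ - x.1) *
          (circleMap ζ₀ ρ θ - x.2.1))⁻¹ • c (circleMap ζ₀ ρ θ, x.2.2))) ?_ ?_ ?_
      · rw [Measure.restrict_apply measurableSet_Ioc.compl, compl_inter_self, measure_empty]
      · have hcm : Continuous (circleMap ζ₀ ρ) := continuous_circleMap ζ₀ ρ
        refine ContinuousOn.smul ?_ (ContinuousOn.smul ?_ ?_)
        · simp only [deriv_circleMap]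
          have : Continuous (circleMap 0 ρ) := continuous_circleMap 0 ρ
          fun_prop
        · refine ContinuousOn.inv₀ (by fun_prop) ?_
          rintro ⟨θ, z, w, p⟩ ⟨-, hz, hw, hp⟩
          have h1 := hne θ z hz
          have h2 := hne θ w hw
          have h3 : (0 : ℝ) < ρ / 2 := by positivity
          exact mul_ne_zero (norm_pos_iff.1 (h3.trans_le h1)) (norm_pos_iff.1 (h3.trans_le h2))
        · refine hc.1.continuousOn.comp (by fun_prop) ?_
          rintro ⟨θ, z, w, p⟩ ⟨-, hz, hw, hp⟩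
          exact ⟨hin θ, hp⟩
      · intro θ _
        refine DifferentiableOn.const_smul ?_ _
        refine DifferentiableOn.smul ?_ ?_
        · refine DifferentiableOn.inv (by fun_prop) ?_
          rintro ⟨z, w, p⟩ ⟨hz, hw, hp⟩
          have h1 := hne θ z hz
          have h2 := hne θ w hw
          have h3 : (0 : ℝ) < ρ / 2 := by positivity
          exact mul_ne_zero (norm_pos_iff.1 (h3.trans_le h1)) (norm_pos_iff.1 (h3.trans_le h2))
        · refine hc.1.comp (by fun_prop) ?_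
          rintro ⟨z, w, p⟩ ⟨hz, hw, hp⟩
          exact ⟨hin θ, hp⟩
      · intro q hq
        refine ⟨|ρ| * ((ρ / 2 * (ρ / 2))⁻¹ * M), Ω, hΩo.mem_nhds hq, ?_⟩
        rintro ⟨z, w, p⟩ ⟨hz, hw, hp⟩ θ _
        rw [norm_smul, norm_smul, norm_inv, norm_mul, deriv_circleMap]
        have h1 := hne θ z hz
        have h2 := hne θ w hw
        have h3 : (0 : ℝ) < ρ / 2 := by positivity
        have h4 : ‖circleMap 0 ρ θ * Complex.I‖ = |ρ| := by simp
        rw [h4]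
        refine mul_le_mul_of_nonneg_left ?_ (abs_nonneg _)
        refine mul_le_mul ?_ (hc.2 _ ⟨hin θ, hp⟩) (norm_nonneg _) (by positivity)
        exact inv_anti₀ (by positivity) (mul_le_mul h1 h2 h3.le (norm_nonneg _))
    have h5 : EqOn (dq c) (fun x : ℂ × (ℂ × G) => (2 * Real.pi * Complex.I : ℂ)⁻¹ • ∫ θ : ℝ,
        deriv (circleMap ζ₀ ρ) θ • (((circleMap ζ₀ ρ θ - x.1) * (circleMap ζ₀ ρ θ - x.2.1))⁻¹ •
          c (circleMap ζ₀ ρ θ, x.2.2)) ∂(volume.restrict (Ioc 0 (2 * Real.pi)))) Ω := by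
      rintro ⟨z, w, p⟩ ⟨hz, hw, hp⟩
      rw [dq_eq hS hc.1 hρ (ball_subset_ball (by linarith) hz)
        (ball_subset_ball (by linarith) hw) hp, circleIntegral,
        intervalIntegral.integral_of_le Real.two_pi_pos.le]
    exact ((key.const_smul _).congr h5).differentiableAt (hΩo.mem_nhds hmem)
  · have h1 : (dq c) =ᶠ[𝓝 (ζ₀, w₀, p₀)] fun x => (x.1 - x.2.1)⁻¹ •
        (c (x.1, x.2.2) - c (x.2.1, x.2.2)) := by
      have h2 : ∀ᶠ x : ℂ × (ℂ × G) in 𝓝 (ζ₀, w₀, p₀), x.1 ≠ x.2.1 :=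
        (isOpen_ne_fun continuous_fst (continuous_fst.comp continuous_snd)).mem_nhds h
      filter_upwards [h2] with x hx
      exact dq_of_ne c hx x.2.2
    refine DifferentiableAt.congr_of_eventuallyEq ?_ h1
    refine DifferentiableAt.smul ?_ (DifferentiableAt.sub ?_ ?_)
    · exact DifferentiableAt.inv (by fun_prop) (sub_ne_zero.2 h)
    · refine DifferentiableAt.comp (ζ₀, w₀, p₀) (g := c) ?_ (by fun_prop)
      exact hc.1.differentiableAt (hSP.mem_nhds ⟨hζ₀, hp₀⟩)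
    · refine DifferentiableAt.comp (ζ₀, w₀, p₀) (g := c) ?_ (by fun_prop)
      exact hc.1.differentiableAt (hSP.mem_nhds ⟨hw₀, hp₀⟩)

end DQ2


section Op

theorem isOpen_Cs (ε R : ℝ) : IsOpen (Cs ε R) :=
  (isOpen_lt (Complex.continuous_re.abs) continuous_const).inter
    (isOpen_lt (Complex.continuous_im.abs) continuous_const)

theorem isOpen_Rc (ε R : ℝ) : IsOpen (Rc ε R) :=
  (isOpen_lt (Complex.continuous_re.abs) continuous_const).inter
    (isOpen_lt (Complex.continuous_im.abs) continuous_const)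

theorem Rc_subset {ε : ℝ} (hε : 0 < ε) (R : ℝ) : Rc ε R ⊆ Cs ε R := fun w hw =>
  ⟨by have h : |w.re| < ε / 2 := hw.1
      change |w.re| < ε
      linarith, hw.2⟩

theorem finite_Rc (ε R : ℝ) : IsFiniteMeasure (volume.restrict (Rc ε R)) := by
  refine ⟨?_⟩
  rw [Measure.restrict_apply_univ]
  refine Bornology.IsBounded.measure_lt_top ?_
  rw [isBounded_iff_forall_norm_le]
  refine ⟨ε / 2 + R, fun w hw => ?_⟩
  have h := Complex.norm_le_abs_re_add_abs_im w
  have h1 := hw.1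
  have h2 := hw.2
  linarith

theorem ramp_nonneg (ε x : ℝ) : 0 ≤ ramp ε x := le_max_left _ _

theorem ramp_le_one (ε x : ℝ) : ramp ε x ≤ 1 := max_le zero_le_one (min_le_left _ _)

theorem ramp_eq_zero {ε x : ℝ} (hε : 0 < ε) (hx : x ≤ -(ε / 2)) : ramp ε x = 0 := by
  refine max_eq_left (min_le_of_right_le ?_)
  exact div_nonpos_of_nonpos_of_nonneg (by linarith) hε.le

theorem ramp_eq_one {ε x : ℝ} (hε : 0 < ε) (hx : ε / 2 ≤ x) : ramp ε x = 1 := by
  have : 1 ≤ (x + ε / 2) / ε := by rw [le_div_iff₀ hε]; linarith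
  rw [ramp, min_eq_left this, max_eq_right zero_le_one]

variable {G F : Type} [NormedAddCommGroup G] [NormedSpace ℂ G] [FiniteDimensional ℂ G]
  [NormedAddCommGroup F] [NormedSpace ℂ F] [FiniteDimensional ℂ F]

omit [FiniteDimensional ℂ G] in
theorem integrable_inv (ε R : ℝ) (w : ℂ) : IntegrableOn (fun ζ : ℂ => (ζ - w)⁻¹) (Rc ε R) := by
  obtain ⟨K, -, hK⟩ := kernel_bound ε R
  have h1 : AEStronglyMeasurable (fun ζ : ℂ => (ζ - w)⁻¹) (volume.restrict (Rc ε R)) :=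
    (measurable_id.sub_const w).inv.aestronglyMeasurable
  refine (integrable_norm_iff h1).1 ?_
  simp only [norm_inv]
  exact (hK w).1

omit [FiniteDimensional ℂ G] [FiniteDimensional ℂ F] in
theorem integrable_kernel {ε : ℝ} (hε : 0 < ε) (R : ℝ) {P : Set G} {c : ℂ × G → F} {M : ℝ}
    (hc : HB (Cs ε R) P M c) {p : G} (hp : p ∈ P) (w : ℂ) :
    IntegrableOn (fun ζ : ℂ => (ζ - w)⁻¹ • c (ζ, p)) (Rc ε R) := by
  have hcm : AEStronglyMeasurable (fun ζ : ℂ => c (ζ, p)) (volume.restrict (Rc ε R)) :=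
    ((diff_section hc.1 hp).continuousOn.mono (Rc_subset hε R)).aestronglyMeasurable
      (isOpen_Rc ε R).measurableSet
  have h2 := (integrable_inv ε R w).norm.const_mul M
  refine Integrable.mono' h2 ((measurable_id.sub_const w).inv.aestronglyMeasurable.smul hcm) ?_
  refine (ae_restrict_iff' (isOpen_Rc ε R).measurableSet).2 (Filter.Eventually.of_forall ?_)
  intro ζ hζ
  rw [norm_smul, mul_comm]
  exact mul_le_mul_of_nonneg_right (hc.2 _ ⟨Rc_subset hε R hζ, hp⟩) (norm_nonneg _)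

/-- the solid Cauchy transform -/
noncomputable def Uop (ε R : ℝ) (c : ℂ × G → F) (x : ℂ × G) : F :=
  ((1 / (2 * Real.pi * ε) : ℝ) : ℂ) • ∫ ζ in Rc ε R, (ζ - x.1)⁻¹ • c (ζ, x.2)

open Classical in
/-- extension by zero -/
noncomputable def cut (ε R : ℝ) (c : ℂ × G → F) (x : ℂ × G) : F :=
  if x.1 ∈ Cs ε R then c x else 0

/-- first splitting operator -/
noncomputable def opA (ε R : ℝ) (c : ℂ × G → F) (x : ℂ × G) : F :=
  -((ramp ε x.1.re : ℂ) • cut ε R c x) - Uop ε R c x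

/-- second splitting operator -/
noncomputable def opB (ε R : ℝ) (c : ℂ × G → F) (x : ℂ × G) : F :=
  (1 - (ramp ε x.1.re : ℂ)) • cut ε R c x - Uop ε R c x

/-- the integral of the difference quotient is holomorphic -/
theorem differentiableOn_int_dq {ε : ℝ} (hε : 0 < ε) (R : ℝ) {P : Set G} (hP : IsOpen P)
    {c : ℂ × G → F} {M : ℝ} (hc : HB (Cs ε R) P M c) :
    DifferentiableOn ℂ (fun x : ℂ × G => ∫ ζ in Rc ε R, dq c (ζ, x)) (Cs ε R ×ˢ P) := by
  have : CompleteSpace F := FiniteDimensional.complete ℂ F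
  have hfin := finite_Rc ε R
  have hCs := isOpen_Cs ε R
  have hd := differentiableOn_dq hCs hP hc
  refine differentiableOn_integral (volume.restrict (Rc ε R)) (Rc ε R)
    (isOpen_Rc ε R).measurableSet ?_ (hCs.prod hP) (fun ζ x => dq c (ζ, x)) ?_ ?_ ?_
  · rw [Measure.restrict_apply (isOpen_Rc ε R).measurableSet.compl, compl_inter_self,
      measure_empty]
  · exact hd.continuousOn.mono (prod_mono (Rc_subset hε R) subset_rfl)
  · intro ζ hζ
    exact hd.comp (by fun_prop) fun x hx => ⟨Rc_subset hε R hζ, hx⟩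
  · rintro ⟨w₀, p₀⟩ ⟨hw₀, hp₀⟩
    obtain ⟨ρ, hρ0, hρ⟩ : ∃ ρ > 0, closedBall w₀ ρ ⊆ Cs ε R :=
      nhds_basis_closedBall.mem_iff.1 (hCs.mem_nhds hw₀)
    have hM : 0 ≤ M := (norm_nonneg _).trans (hc.2 _ ⟨hw₀, hp₀⟩)
    refine ⟨8 * M / ρ, ball w₀ (ρ / 4) ×ˢ P,
      (isOpen_ball.prod hP).mem_nhds ⟨mem_ball_self (by positivity), hp₀⟩, ?_⟩
    rintro ⟨w, p⟩ ⟨hw, hp⟩ ζ hζ
    simp only at hw hp
    by_cases h : ζ ∈ ball w₀ (ρ / 2)
    · refine (norm_dq_le hCs hc hρ h (ball_subset_ball (by linarith) hw) hp).trans ?_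
      gcongr
      linarith
    · have h1 : ρ / 4 ≤ ‖ζ - w‖ := by
        rw [mem_ball, dist_eq_norm, not_lt] at h
        rw [mem_ball, dist_eq_norm] at hw
        have := norm_sub_norm_le (ζ - w₀) (w - w₀)
        rw [sub_sub_sub_cancel_right] at this
        linarith
      have hne : ζ ≠ w := by
        rintro rfl
        rw [sub_self, norm_zero] at h1
        linarith
      have hwS : w ∈ Cs ε R := hρ (ball_subset_closedBall (ball_subset_ball (by linarith) hw))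
      rw [dq_of_ne c hne, norm_smul, norm_inv]
      have h2 : ‖c (ζ, p) - c (w, p)‖ ≤ 2 * M := by
        have h3 := hc.2 (ζ, p) ⟨Rc_subset hε R hζ, hp⟩
        have h4 := hc.2 (w, p) ⟨hwS, hp⟩
        have h5 := norm_sub_le (c (ζ, p)) (c (w, p))
        linarith
      have h3 : ‖ζ - w‖⁻¹ ≤ (ρ / 4)⁻¹ := inv_anti₀ (by positivity) h1
      calc ‖ζ - w‖⁻¹ * ‖c (ζ, p) - c (w, p)‖ ≤ (ρ / 4)⁻¹ * (2 * M) :=
            mul_le_mul h3 h2 (norm_nonneg _) (by positivity)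
        _ = 8 * M / ρ := by field_simp; ring

omit [FiniteDimensional ℂ G] in
/-- the key identity on the slab -/
theorem Uop_eq {ε : ℝ} (hε : 0 < ε) (R : ℝ) {P : Set G}
    {c : ℂ × G → F} {M : ℝ} (hc : HB (Cs ε R) P M c) {w : ℂ} {p : G} (hp : p ∈ P) :
    Uop ε R c (w, p) = (((1 / (2 * Real.pi * ε) : ℝ) : ℂ) * ∫ ζ in Rc ε R, (ζ - w)⁻¹) • c (w, p) +
      ((1 / (2 * Real.pi * ε) : ℝ) : ℂ) • ∫ ζ in Rc ε R, dq c (ζ, w, p) := by
  have : CompleteSpace F := FiniteDimensional.complete ℂ F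
  have h1 : ∀ᵐ ζ ∂(volume.restrict (Rc ε R)), (ζ - w)⁻¹ • c (ζ, p) - (ζ - w)⁻¹ • c (w, p) =
      dq c (ζ, w, p) := by
    have h2 : ∀ᵐ ζ ∂(volume.restrict (Rc ε R)), ζ ≠ w := by
      refine ae_restrict_of_ae ?_
      exact compl_mem_ae_iff.2 (measure_singleton w)
    filter_upwards [h2] with ζ hζ
    rw [dq_of_ne c hζ, smul_sub]
  rw [← integral_congr_ae h1, integral_sub (integrable_kernel hε R hc hp w)
    ((integrable_inv ε R w).smul_const _), integral_smul_const, Uop, smul_sub, smul_smul]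
  simp only
  abel

/-- holomorphy of the Cauchy transform away from the region of integration -/
theorem differentiableOn_Uop {ε : ℝ} (hε : 0 < ε) (R : ℝ) {P : Set G} (hP : IsOpen P)
    {c : ℂ × G → F} {M : ℝ} (hc : HB (Cs ε R) P M c) :
    DifferentiableOn ℂ (Uop ε R c) ({w | ε / 2 < |w.re|} ×ˢ P) := by
  have hfin := finite_Rc ε R
  have hS : IsOpen {w : ℂ | ε / 2 < |w.re|} :=
    isOpen_lt continuous_const Complex.continuous_re.abs
  have hne : ∀ ζ ∈ Rc ε R, ∀ w : ℂ, |w.re| - ε / 2 ≤ ‖ζ - w‖ := by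
    intro ζ hζ w
    have h1 := Complex.abs_re_le_norm (ζ - w)
    rw [Complex.sub_re] at h1
    have h2 := abs_sub_abs_le_abs_sub w.re ζ.re
    rw [abs_sub_comm] at h2
    have h3 : |ζ.re| < ε / 2 := hζ.1
    linarith
  refine DifferentiableOn.const_smul ?_ _
  refine differentiableOn_integral (volume.restrict (Rc ε R)) (Rc ε R)
    (isOpen_Rc ε R).measurableSet ?_ (hS.prod hP) (fun ζ x => (ζ - x.1)⁻¹ • c (ζ, x.2)) ?_ ?_ ?_
  · rw [Measure.restrict_apply (isOpen_Rc ε R).measurableSet.compl, compl_inter_self,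
      measure_empty]
  · refine ContinuousOn.smul ?_ ?_
    · refine ContinuousOn.inv₀ (by fun_prop) ?_
      rintro ⟨ζ, w, p⟩ ⟨hζ, hw, hp⟩
      have h1 := hne ζ hζ w
      have h2 : ε / 2 < |w.re| := hw
      exact norm_pos_iff.1 (by linarith)
    · refine hc.1.continuousOn.comp (by fun_prop) ?_
      rintro ⟨ζ, w, p⟩ ⟨hζ, hw, hp⟩
      exact ⟨Rc_subset hε R hζ, hp⟩
  · intro ζ hζ
    refine DifferentiableOn.smul ?_ ?_
    · refine DifferentiableOn.inv (by fun_prop) ?_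
      rintro ⟨w, p⟩ ⟨hw, hp⟩
      have h1 := hne ζ hζ w
      have h2 : ε / 2 < |w.re| := hw
      exact norm_pos_iff.1 (by linarith)
    · refine hc.1.comp (by fun_prop) ?_
      rintro ⟨w, p⟩ ⟨hw, hp⟩
      exact ⟨Rc_subset hε R hζ, hp⟩
  · rintro ⟨w₀, p₀⟩ ⟨hw₀, hp₀⟩
    have hw₀' : ε / 2 < |w₀.re| := hw₀
    set η := (|w₀.re| - ε / 2) / 2 with hη
    have hη0 : 0 < η := by rw [hη]; linarith
    refine ⟨η⁻¹ * M, ball w₀ η ×ˢ P, (isOpen_ball.prod hP).mem_nhds ⟨mem_ball_self hη0, hp₀⟩, ?_⟩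
    rintro ⟨w, p⟩ ⟨hw, hp⟩ ζ hζ
    simp only at hw hp
    have h1 : η ≤ ‖ζ - w‖ := by
      have h2 := hne ζ hζ w
      rw [mem_ball, dist_eq_norm] at hw
      have h3 := Complex.abs_re_le_norm (w - w₀)
      rw [Complex.sub_re] at h3
      have h4 := abs_sub_abs_le_abs_sub w₀.re w.re
      rw [abs_sub_comm] at h4
      linarith
    rw [norm_smul, norm_inv]
    exact mul_le_mul (inv_anti₀ hη0 h1) (hc.2 _ ⟨Rc_subset hε R hζ, hp⟩) (norm_nonneg _)
      (by positivity)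

theorem differentiableAt_opA_slab {ε R : ℝ} (hε : 0 < ε) (hR : 0 < R) {P : Set G}
    (hP : IsOpen P) {c : ℂ × G → F} {M : ℝ} (hc : HB (Cs ε R) P M c) {w : ℂ} {p : G}
    (hw : w ∈ Cs ε R) (hp : p ∈ P) : DifferentiableAt ℂ (opA ε R c) (w, p) := by
  have hCs := isOpen_Cs ε R
  have h1 : DifferentiableOn ℂ (fun x : ℂ × G =>
      -(((ramp ε x.1.re : ℂ) + (1 / (2 * Real.pi * ε) : ℝ) • ∫ ζ in Rc ε R, (ζ - x.1)⁻¹) • c x +
        ((1 / (2 * Real.pi * ε) : ℝ) : ℂ) • ∫ ζ in Rc ε R, dq c (ζ, x))) (Cs ε R ×ˢ P) := by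
    refine DifferentiableOn.neg (DifferentiableOn.add (DifferentiableOn.smul ?_ hc.1)
      ((differentiableOn_int_dq hε R hP hc).const_smul _))
    exact (kernel_hol ε R hε hR).comp (f := fun x : ℂ × G => x.1) (by fun_prop)
      fun x hx => hx.1.2
  have h2 : EqOn (opA ε R c) (fun x : ℂ × G =>
      -(((ramp ε x.1.re : ℂ) + (1 / (2 * Real.pi * ε) : ℝ) • ∫ ζ in Rc ε R, (ζ - x.1)⁻¹) • c x +
        ((1 / (2 * Real.pi * ε) : ℝ) : ℂ) • ∫ ζ in Rc ε R, dq c (ζ, x))) (Cs ε R ×ˢ P) := by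
    rintro ⟨w, p⟩ ⟨hw, hp⟩
    have h3 := Uop_eq hε R hc (w := w) hp
    simp only [opA, cut, if_pos hw, h3, Complex.real_smul, add_smul]
    abel
  exact (h1.congr h2).differentiableAt ((hCs.prod hP).mem_nhds ⟨hw, hp⟩)

omit [FiniteDimensional ℂ G] [FiniteDimensional ℂ F] in
theorem norm_Uop_sub_le {ε R K : ℝ} (hε : 0 < ε)
    (hK : ∀ w : ℂ, IntegrableOn (fun ζ : ℂ => ‖ζ - w‖⁻¹) (Rc ε R) ∧
      ∫ ζ in Rc ε R, ‖ζ - w‖⁻¹ ≤ K) {P : Set G}
    {c c' : ℂ × G → F} {M : ℝ} (hc : HB (Cs ε R) P M c) (hc' : HB (Cs ε R) P M c') {p : G}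
    (hp : p ∈ P) {δ : ℝ} (hδ0 : 0 ≤ δ) (hδ : ∀ w ∈ Cs ε R, ‖c (w, p) - c' (w, p)‖ ≤ δ) (w : ℂ) :
    ‖Uop ε R c (w, p) - Uop ε R c' (w, p)‖ ≤ 1 / (2 * Real.pi * ε) * K * δ := by
  have hpos : 0 < 1 / (2 * Real.pi * ε) := by have := Real.pi_pos; positivity
  simp only [Uop]
  rw [← smul_sub, ← integral_sub (integrable_kernel hε R hc hp w)
    (integrable_kernel hε R hc' hp w), norm_smul, Complex.norm_real, Real.norm_eq_abs,
    abs_of_pos hpos, mul_assoc (1 / (2 * Real.pi * ε)) K δ]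
  refine mul_le_mul_of_nonneg_left ?_ hpos.le
  have h1 : ‖∫ ζ in Rc ε R, ((ζ - w)⁻¹ • c (ζ, p) - (ζ - w)⁻¹ • c' (ζ, p))‖ ≤
      ∫ ζ in Rc ε R, ‖ζ - w‖⁻¹ * δ := by
    refine norm_integral_le_of_norm_le ((hK w).1.mul_const δ) ?_
    refine (ae_restrict_iff' (isOpen_Rc ε R).measurableSet).2 (Filter.Eventually.of_forall ?_)
    intro ζ hζ
    rw [← smul_sub, norm_smul, norm_inv]
    exact mul_le_mul_of_nonneg_left (hδ ζ (Rc_subset hε R hζ)) (by positivity)
  refine h1.trans ?_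
  rw [integral_mul_const]
  exact mul_le_mul_of_nonneg_right (hK w).2 hδ0

end Op

theorem exists_split (ε R : ℝ) (hε : 0 < ε) (hR : 0 < R) (G F : Type) [NormedAddCommGroup G]
    [NormedSpace ℂ G] [FiniteDimensional ℂ G] [NormedAddCommGroup F] [NormedSpace ℂ F]
    [FiniteDimensional ℂ F] :
    ∃ (K : ℝ) (𝒜 ℬ : (ℂ × G → F) → ℂ × G → F), 0 < K ∧
      (∀ (P : Set G) (c : ℂ × G → F) (M : ℝ), IsOpen P → HB (Cs ε R) P M c →
        DifferentiableOn ℂ (𝒜 c) (As ε R ×ˢ P) ∧ DifferentiableOn ℂ (ℬ c) (Bs ε R ×ˢ P) ∧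
        ∀ x ∈ Cs ε R ×ˢ P, ℬ c x - 𝒜 c x = c x) ∧
      (∀ (P : Set G) (c c' : ℂ × G → F) (M : ℝ), IsOpen P → HB (Cs ε R) P M c →
        HB (Cs ε R) P M c' → ∀ p ∈ P, ∀ δ : ℝ, (∀ w ∈ Cs ε R, ‖c (w, p) - c' (w, p)‖ ≤ δ) →
          (∀ w ∈ As ε R, ‖𝒜 c (w, p) - 𝒜 c' (w, p)‖ ≤ K * δ) ∧
          ∀ w ∈ Bs ε R, ‖ℬ c (w, p) - ℬ c' (w, p)‖ ≤ K * δ) ∧
      (∀ w p, 𝒜 0 (w, p) = 0) ∧ ∀ w p, ℬ 0 (w, p) = 0 := by
  obtain ⟨K, hK0, hK⟩ := kernel_bound ε R
  have hκ : 0 < 1 / (2 * Real.pi * ε) := by have := Real.pi_pos; positivity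
  refine ⟨1 + 1 / (2 * Real.pi * ε) * K, opA ε R, opB ε R, by positivity, ?_, ?_, ?_, ?_⟩
  · intro P c M hP hc
    have hU := differentiableOn_Uop hε R hP hc
    have hCs := isOpen_Cs ε R
    refine ⟨?_, ?_, ?_⟩
    · rintro ⟨w, p⟩ ⟨hw, hp⟩
      refine DifferentiableAt.differentiableWithinAt ?_
      by_cases hwC : w ∈ Cs ε R
      · exact differentiableAt_opA_slab hε hR hP hc hwC hp
      · have h1 : w.re < -(ε / 2) := by
          by_contra h
          rw [not_lt] at h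
          refine hwC ⟨?_, hw.2⟩
          rw [abs_lt]
          exact ⟨by linarith, hw.1⟩
        have ho : IsOpen ({z : ℂ | z.re < -(ε / 2)} ×ˢ P) :=
          (isOpen_lt Complex.continuous_re continuous_const).prod hP
        have h2 : EqOn (opA ε R c) (fun x => -Uop ε R c x) ({z : ℂ | z.re < -(ε / 2)} ×ˢ P) := by
          rintro ⟨z, q⟩ ⟨hz, hq⟩
          simp only [opA, ramp_eq_zero hε (le_of_lt hz), Complex.ofReal_zero, zero_smul, neg_zero,
            zero_sub]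
        have h3 : DifferentiableOn ℂ (fun x => -Uop ε R c x) ({z : ℂ | z.re < -(ε / 2)} ×ˢ P) := by
          refine (hU.mono ?_).neg
          rintro ⟨z, q⟩ ⟨hz, hq⟩
          refine ⟨?_, hq⟩
          have hz' : z.re < -(ε / 2) := hz
          change ε / 2 < |z.re|
          rw [abs_of_neg (by linarith)]
          linarith
        exact (h3.congr h2).differentiableAt (ho.mem_nhds ⟨h1, hp⟩)
    · rintro ⟨w, p⟩ ⟨hw, hp⟩
      refine DifferentiableAt.differentiableWithinAt ?_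
      by_cases hwC : w ∈ Cs ε R
      · have h1 : opB ε R c =ᶠ[𝓝 (w, p)] fun x => c x + opA ε R c x := by
          filter_upwards [(hCs.prod hP).mem_nhds ⟨hwC, hp⟩] with x hx
          simp only [opA, opB, cut, if_pos hx.1, sub_smul, one_smul]
          abel
        refine DifferentiableAt.congr_of_eventuallyEq ?_ h1
        exact (hc.1.differentiableAt ((hCs.prod hP).mem_nhds ⟨hwC, hp⟩)).add
          (differentiableAt_opA_slab hε hR hP hc hwC hp)
      · have h1 : ε / 2 < w.re := by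
          by_contra h
          rw [not_lt] at h
          refine hwC ⟨?_, hw.2⟩
          rw [abs_lt]
          exact ⟨hw.1, by linarith⟩
        have ho : IsOpen ({z : ℂ | ε / 2 < z.re} ×ˢ P) :=
          (isOpen_lt continuous_const Complex.continuous_re).prod hP
        have h2 : EqOn (opB ε R c) (fun x => -Uop ε R c x) ({z : ℂ | ε / 2 < z.re} ×ˢ P) := by
          rintro ⟨z, q⟩ ⟨hz, hq⟩
          simp only [opB, ramp_eq_one hε (le_of_lt hz), Complex.ofReal_one, sub_self, zero_smul,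
            zero_sub]
        have h3 : DifferentiableOn ℂ (fun x => -Uop ε R c x) ({z : ℂ | ε / 2 < z.re} ×ˢ P) := by
          refine (hU.mono ?_).neg
          rintro ⟨z, q⟩ ⟨hz, hq⟩
          refine ⟨?_, hq⟩
          have hz' : ε / 2 < z.re := hz
          change ε / 2 < |z.re|
          exact hz'.trans_le (le_abs_self _)
        exact (h3.congr h2).differentiableAt (ho.mem_nhds ⟨h1, hp⟩)
    · rintro ⟨w, p⟩ ⟨hw, hp⟩
      simp only [opA, opB, cut, if_pos hw, sub_smul, one_smul]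
      abel
  · intro P c c' M hP hc hc' p hp δ hδ
    have hδ0 : 0 ≤ δ := (norm_nonneg _).trans (hδ 0 (by
      constructor <;> simp [hε, hR]))
    have hU := norm_Uop_sub_le hε hK hc hc' hp hδ0 hδ
    have hcut : ∀ w, ‖cut ε R c (w, p) - cut ε R c' (w, p)‖ ≤ δ := by
      intro w
      by_cases hw : w ∈ Cs ε R
      · simp only [cut, if_pos hw]
        exact hδ w hw
      · simp only [cut, if_neg hw, sub_self, norm_zero]
        exact hδ0
    constructor
    · intro w _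
      have h1 : opA ε R c (w, p) - opA ε R c' (w, p) =
          -((ramp ε w.re : ℂ) • (cut ε R c (w, p) - cut ε R c' (w, p))) -
          (Uop ε R c (w, p) - Uop ε R c' (w, p)) := by
        simp only [opA, smul_sub]
        abel
      rw [h1]
      refine (norm_sub_le _ _).trans ?_
      rw [norm_neg, norm_smul, Complex.norm_real, Real.norm_eq_abs,
        abs_of_nonneg (ramp_nonneg _ _), add_mul, one_mul]
      refine add_le_add ?_ (hU w)
      calc ramp ε w.re * ‖cut ε R c (w, p) - cut ε R c' (w, p)‖ ≤ 1 * δ :=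
            mul_le_mul (ramp_le_one _ _) (hcut w) (norm_nonneg _) zero_le_one
        _ = δ := one_mul _
    · intro w _
      have h1 : opB ε R c (w, p) - opB ε R c' (w, p) =
          ((1 - ramp ε w.re : ℝ) : ℂ) • (cut ε R c (w, p) - cut ε R c' (w, p)) -
          (Uop ε R c (w, p) - Uop ε R c' (w, p)) := by
        simp only [opB, smul_sub, Complex.ofReal_sub, Complex.ofReal_one]
        abel
      rw [h1]
      refine (norm_sub_le _ _).trans ?_
      have h2 : 0 ≤ 1 - ramp ε w.re := sub_nonneg.2 (ramp_le_one _ _)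
      rw [norm_smul, Complex.norm_real, Real.norm_eq_abs, abs_of_nonneg h2, add_mul, one_mul]
      refine add_le_add ?_ (hU w)
      calc (1 - ramp ε w.re) * ‖cut ε R c (w, p) - cut ε R c' (w, p)‖ ≤ 1 * δ :=
            mul_le_mul (by linarith [ramp_nonneg ε w.re]) (hcut w) (norm_nonneg _) zero_le_one
        _ = δ := one_mul _
  · intro w p
    simp [opA, cut, Uop]
  · intro w p
    simp [opB, cut, Uop]

end Pool.Agent.Helper42.OKA
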